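import Mathlib

set_option autoImplicit false

namespace Pool.Agent.Lib.MP_f0b429_co

open Nat

/-- `g p = e p + #{q ∈ I : p < q}` -/
def cg (I : Finset ℕ) (e : ℕ → ℕ) (p : ℕ) : ℕ := e p + (I.filter (fun q => p < q)).card

lemma cg_anti (I : Finset ℕ) (e : ℕ → ℕ) (he : ∀ p ∈ I, ∀ q ∈ I, p < q → e q ≤ e p) :
    ∀ p ∈ I, ∀ q ∈ I, p < q → cg I e q < cg I e p := by
  intro p hp q hq hpq
  unfold cg
  have h1 := he p hp q hq hpq
  have h2 : (I.filter (fun r => q < r)).card < (I.filter (fun r => p < r)).card := by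
    apply Finset.card_lt_card
    rw [Finset.ssubset_iff_of_subset]
    · exact ⟨q, by simp [hq, hpq], by simp⟩
    · intro r hr
      simp only [Finset.mem_filter] at hr ⊢
      exact ⟨hr.1, by omega⟩
  omega

lemma code_mem (I : Finset ℕ) (e : ℕ → ℕ) (V : ℕ)
    (he : ∀ p ∈ I, ∀ q ∈ I, p < q → e q ≤ e p) (hV : ∀ p ∈ I, e p ≤ V) :
    I.image (cg I e) ∈ Finset.powersetCard I.card (Finset.range (V + I.card)) := by
  rw [Finset.mem_powersetCard]
  constructor
  · intro x hx
    rw [Finset.mem_image] at hx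
    obtain ⟨p, hp, rfl⟩ := hx
    rw [Finset.mem_range]
    unfold cg
    have h1 := hV p hp
    have h2 : (I.filter (fun q => p < q)).card < I.card := by
      apply Finset.card_lt_card
      rw [Finset.ssubset_iff_of_subset (Finset.filter_subset _ _)]
      exact ⟨p, hp, by simp⟩
    omega
  · apply Finset.card_image_of_injOn
    intro p hp q hq hpq
    by_contra hne
    rcases lt_or_gt_of_ne hne with h | h
    · have := cg_anti I e he p hp q hq h; omega
    · have := cg_anti I e he q hq p hp h; omega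

lemma code_inj (I : Finset ℕ) (e e' : ℕ → ℕ)
    (he : ∀ p ∈ I, ∀ q ∈ I, p < q → e q ≤ e p) (he' : ∀ p ∈ I, ∀ q ∈ I, p < q → e' q ≤ e' p)
    (h : I.image (cg I e) = I.image (cg I e')) : ∀ p ∈ I, e p = e' p := by
  -- as functions on the subtype
  let G : I → ℕᵒᵈ := fun p => OrderDual.toDual (cg I e p)
  let G' : I → ℕᵒᵈ := fun p => OrderDual.toDual (cg I e' p)
  have hG : StrictMono G := by
    intro p q hpq
    exact cg_anti I e he p p.2 q q.2 hpq
  have hG' : StrictMono G' := by
    intro p q hpq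
    exact cg_anti I e' he' p p.2 q q.2 hpq
  have hr : Set.range G = Set.range G' := by
    ext x
    have hx : OrderDual.ofDual x ∈ I.image (cg I e) ↔ OrderDual.ofDual x ∈ I.image (cg I e') := by
      rw [h]
    simp only [Finset.mem_image] at hx
    constructor
    · rintro ⟨p, rfl⟩
      obtain ⟨q, hq, hq2⟩ := hx.1 ⟨p, p.2, rfl⟩
      exact ⟨⟨q, hq⟩, congrArg OrderDual.toDual hq2⟩
    · rintro ⟨p, rfl⟩
      obtain ⟨q, hq, hq2⟩ := hx.2 ⟨p, p.2, rfl⟩
      exact ⟨⟨q, hq⟩, congrArg OrderDual.toDual hq2⟩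
  have heq : G = G' := (hG.range_inj hG').1 hr
  intro p hp
  have h1 : cg I e p = cg I e' p := congrFun heq ⟨p, hp⟩
  unfold cg at h1
  omega

/-- valuations of factorials are antitone in the prime -/
lemma fact_anti {p q : ℕ} (hp : p.Prime) (hq : q.Prime) (hpq : p < q) (l : ℕ) :
    (l !).factorization q ≤ (l !).factorization p := by
  rw [Nat.factorization_factorial hp (Nat.lt_succ_self (Nat.log p l)),
    Nat.factorization_factorial hq (b := (Nat.log p l).succ)]
  · apply Finset.sum_le_sum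
    intro i _
    exact Nat.div_le_div_left (Nat.pow_le_pow_left hpq.le i) (pow_pos hp.pos i)
  · exact lt_of_le_of_lt (Nat.log_anti_left hp.one_lt hpq.le) (Nat.lt_succ_self _)

/-- product of the factorials of a multiset -/
def fp (S : Multiset ℕ) : ℕ := (S.map Nat.factorial).prod

lemma fp_ne_zero (S : Multiset ℕ) : fp S ≠ 0 := by
  unfold fp
  apply Multiset.prod_ne_zero
  intro h
  rw [Multiset.mem_map] at h
  obtain ⟨a, _, ha⟩ := h
  exact Nat.factorial_ne_zero a ha

lemma fp_cons (a : ℕ) (S : Multiset ℕ) : fp (a ::ₘ S) = a ! * fp S := by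
  unfold fp; simp

lemma fp_factorization_cons (a : ℕ) (S : Multiset ℕ) (p : ℕ) :
    (fp (a ::ₘ S)).factorization p = (a !).factorization p + (fp S).factorization p := by
  rw [fp_cons, Nat.factorization_mul (Nat.factorial_ne_zero a) (fp_ne_zero S)]
  rfl

lemma fp_anti {p q : ℕ} (hp : p.Prime) (hq : q.Prime) (hpq : p < q) (S : Multiset ℕ) :
    (fp S).factorization q ≤ (fp S).factorization p := by
  induction S using Multiset.induction with
  | empty => simp [fp]
  | cons a S ih =>
    rw [fp_factorization_cons, fp_factorization_cons]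
    have := fact_anti hp hq hpq a
    omega

lemma fp_bound {p : ℕ} (hp : p.Prime) (S : Multiset ℕ) :
    (p - 1) * (fp S).factorization p ≤ S.sum := by
  induction S using Multiset.induction with
  | empty => simp [fp]
  | cons a S ih =>
    rw [fp_factorization_cons, mul_add, Multiset.sum_cons]
    have h := Nat.sub_one_mul_factorization_factorial (n := a) hp
    have h2 : (p - 1) * (a !).factorization p ≤ a := by rw [h]; exact Nat.sub_le _ _
    omega

lemma fp_eq_zero {p : ℕ} (S : Multiset ℕ) (h : S.sum < p) : (fp S).factorization p = 0 := by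
  induction S using Multiset.induction with
  | empty => simp [fp]
  | cons a S ih =>
    rw [Multiset.sum_cons] at h
    rw [fp_factorization_cons, ih (by omega),
      Nat.factorization_factorial_eq_zero_of_lt (by omega)]

/-- dyadic block of primes -/
def Blk (j : ℕ) : Finset ℕ := (Finset.Ioc (2 ^ j) (2 ^ (j+1))).filter Nat.Prime

lemma mem_blk {j p : ℕ} : p ∈ Blk j ↔ (2 ^ j < p ∧ p ≤ 2 ^ (j+1)) ∧ p.Prime := by
  simp [Blk]

lemma blk_anti (j : ℕ) (S : Multiset ℕ) :
    ∀ p ∈ Blk j, ∀ q ∈ Blk j, p < q → (fp S).factorization q ≤ (fp S).factorization p := by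
  intro p hp q hq hpq
  rw [mem_blk] at hp hq
  exact fp_anti hp.2 hq.2 hpq S

lemma blk_bound {s j : ℕ} (hj : j < 2 * s) (S : Multiset ℕ) (hS : S.sum ≤ 4 ^ s) :
    ∀ p ∈ Blk j, (fp S).factorization p ≤ 2 ^ (2 * s - j) := by
  intro p hp
  rw [mem_blk] at hp
  have h1 := fp_bound hp.2 S
  have h2 : 2 ^ j ≤ p - 1 := by omega
  have h3 : 2 ^ j * (fp S).factorization p ≤ 2 ^ j * 2 ^ (2 * s - j) := by
    calc 2 ^ j * (fp S).factorization p ≤ (p - 1) * (fp S).factorization p :=
          Nat.mul_le_mul_right _ h2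
      _ ≤ S.sum := h1
      _ ≤ 4 ^ s := hS
      _ = 2 ^ j * 2 ^ (2 * s - j) := by
          rw [← pow_add]
          have : j + (2 * s - j) = 2 * s := by omega
          rw [this, pow_mul]
          norm_num
  exact Nat.le_of_mul_le_mul_left h3 (pow_pos (by norm_num) j)

/-- every prime at most `2^J` lies in a block `j < J`. -/
lemma exists_blk {J p : ℕ} (hp : p.Prime) (hpJ : p ≤ 2 ^ J) : ∃ j < J, p ∈ Blk j := by
  have h1 : 1 < p := hp.one_lt
  refine ⟨Nat.log 2 (p - 1), ?_, ?_⟩
  · apply Nat.log_lt_of_lt_pow (by omega) (by omega)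
  · rw [mem_blk]
    refine ⟨⟨?_, ?_⟩, hp⟩
    · have := Nat.pow_log_le_self 2 (x := p - 1) (by omega)
      omega
    · have := Nat.lt_pow_succ_log_self (b := 2) (by norm_num) (p - 1)
      simp only [Nat.succ_eq_add_one] at this
      omega

/-- Main upper bound. -/
lemma card_values_le {s : ℕ} (𝒱 : Finset ℕ)
    (h𝒱 : ∀ v ∈ 𝒱, ∃ S : Multiset ℕ, S.sum ≤ 4 ^ s ∧ fp S = v) :
    𝒱.card ≤ ∏ j : Fin (2 * s), (2 ^ (2 * s - (j : ℕ)) + (Blk j).card).choose (Blk j).card := by
  classical
  set Φ : ℕ → (Fin (2 * s) → Finset ℕ) := fun v j => (Blk j).image (cg (Blk j) v.factorization)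
    with hΦ
  set T := Fintype.piFinset (fun j : Fin (2 * s) =>
    Finset.powersetCard (Blk j).card (Finset.range (2 ^ (2 * s - (j : ℕ)) + (Blk j).card))) with hT
  have h1 : ∀ v ∈ 𝒱, Φ v ∈ T := by
    intro v hv
    obtain ⟨S, hS, rfl⟩ := h𝒱 v hv
    rw [hT, Fintype.mem_piFinset]
    intro j
    exact code_mem _ _ _ (blk_anti j S) (blk_bound j.2 S hS)
  have h2 : Set.InjOn Φ 𝒱 := by
    intro v hv w hw hvw
    obtain ⟨S, hS, rfl⟩ := h𝒱 v hv
    obtain ⟨S', hS', rfl⟩ := h𝒱 w hw
    apply Nat.eq_of_factorization_eq (fp_ne_zero S) (fp_ne_zero S')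
    intro p
    by_cases hp : p.Prime
    · by_cases hple : p ≤ 2 ^ (2 * s)
      · obtain ⟨j, hj, hpj⟩ := exists_blk hp hple
        have h3 := congrFun hvw ⟨j, hj⟩
        exact code_inj (Blk j) _ _ (blk_anti j S) (blk_anti j S') h3 p hpj
      · have aux : ∀ R : Multiset ℕ, R.sum ≤ 4 ^ s → (fp R).factorization p = 0 := by
          intro R hR
          apply fp_eq_zero
          have h7 : (4 : ℕ) ^ s = 2 ^ (2 * s) := by rw [pow_mul]; norm_num
          omega
        rw [aux S hS, aux S' hS']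
    · rw [Nat.factorization_eq_zero_of_not_prime _ hp, Nat.factorization_eq_zero_of_not_prime _ hp]
  calc 𝒱.card ≤ T.card := Finset.card_le_card_of_injOn Φ h1 h2
    _ = _ := by
      rw [hT, Fintype.card_piFinset]
      apply Finset.prod_congr rfl
      intro j _
      rw [Finset.card_powersetCard, Finset.card_range]

end Pool.Agent.Lib.MP_f0b429_co
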