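import Mathlib
import Pool.Agent.Lib.MP_f0b429_co.Upper

set_option autoImplicit false

namespace Pool.Agent.Lib.MP_f0b429_co

open Nat

lemma succ_pow_le (t : ℕ) (ht : 0 < t) : (t + 1) ^ t ≤ 4 * t ^ t := by
  have h1 : ((t : ℝ) + 1) ^ t ≤ 4 * (t : ℝ) ^ t := by
    have htpos : (0 : ℝ) < t := by exact_mod_cast ht
    have h2 : (t : ℝ) + 1 = t * (1 + 1 / t) := by field_simp
    rw [h2, mul_pow]
    have h3 : (1 + 1 / (t : ℝ)) ^ t ≤ 4 := by
      have h4 : (1 + 1 / (t : ℝ)) ≤ Real.exp (1 / t) := by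
        have := Real.add_one_le_exp (1 / (t : ℝ))
        linarith
      calc (1 + 1 / (t : ℝ)) ^ t ≤ (Real.exp (1 / t)) ^ t := by
            apply pow_le_pow_left₀ (by positivity) h4
        _ = Real.exp 1 := by
            rw [← Real.exp_nat_mul]
            congr 1
            field_simp
        _ ≤ 4 := by
            have := Real.exp_one_lt_d9
            linarith
    have h5 : (0 : ℝ) ≤ (t : ℝ) ^ t := by positivity
    calc (t : ℝ) ^ t * (1 + 1 / t) ^ t ≤ (t : ℝ) ^ t * 4 := by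
          exact mul_le_mul_of_nonneg_left h3 h5
      _ = 4 * (t : ℝ) ^ t := by ring
  exact_mod_cast h1

lemma choose_bound {V R a b : ℕ} (hV : V ≤ 2 ^ a) (hR : R ≤ 2 ^ b) (hab : b ≤ a) :
    (V + R).choose R ≤ 2 ^ (2 ^ b * (a - b + 3)) := by
  obtain ⟨d, rfl⟩ := Nat.exists_eq_add_of_le hab
  have e1 : (V + R).choose R ≤ (2 ^ (b + d) + 2 ^ b).choose (2 ^ b) := by
    have s1 : (V + R).choose R ≤ (2 ^ (b + d) + R).choose R := Nat.choose_le_choose _ (by omega)
    have s2 : (2 ^ (b + d) + R).choose (2 ^ (b + d)) = (2 ^ (b + d) + R).choose R :=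
      Nat.choose_symm_add
    have s3 : (2 ^ (b + d) + R).choose (2 ^ (b + d)) ≤
        (2 ^ (b + d) + 2 ^ b).choose (2 ^ (b + d)) := Nat.choose_le_choose _ (by omega)
    have s4 : (2 ^ (b + d) + 2 ^ b).choose (2 ^ (b + d)) = (2 ^ (b + d) + 2 ^ b).choose (2 ^ b) :=
      Nat.choose_symm_add
    rw [s2, s4] at s3
    exact s1.trans s3
  refine e1.trans ?_
  have hsub : b + d - b = d := by omega
  rw [hsub]
  set T := 2 ^ b with hT
  set t := 2 ^ d with ht
  have hVt : 2 ^ (b + d) = t * T := by rw [hT, ht, ← pow_add, add_comm]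
  rw [hVt]
  have htpos : 0 < t := by positivity
  -- binomial theorem
  have e2 : (t * T + T).choose T * t ^ (t * T) ≤ (t + 1) ^ (t * T + T) := by
    rw [add_pow]
    have h3 := Finset.single_le_sum (f := fun m => t ^ m * 1 ^ (t * T + T - m) *
      (t * T + T).choose m) (s := Finset.range (t * T + T + 1)) (fun i _ => Nat.zero_le _)
      (Finset.mem_range.mpr (by omega : t * T < t * T + T + 1))
    simp only [one_pow, mul_one] at h3 ⊢
    rw [Nat.choose_symm_add (a := t * T) (b := T)] at h3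
    rw [mul_comm]
    exact h3
  have e3 : (t + 1) ^ (t * T + T) ≤ (4 ^ T * (2 * t) ^ T) * t ^ (t * T) := by
    calc (t + 1) ^ (t * T + T) = ((t + 1) ^ t) ^ T * (t + 1) ^ T := by
          rw [pow_add, pow_mul]
      _ ≤ (4 * t ^ t) ^ T * (2 * t) ^ T := by
          apply Nat.mul_le_mul
          · exact Nat.pow_le_pow_left (succ_pow_le t htpos) T
          · exact Nat.pow_le_pow_left (by omega) T
      _ = (4 ^ T * (2 * t) ^ T) * t ^ (t * T) := by
          rw [mul_pow 4, ← pow_mul]; ring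
  have e4 : (t * T + T).choose T ≤ 4 ^ T * (2 * t) ^ T :=
    Nat.le_of_mul_le_mul_right (e2.trans e3) (pow_pos htpos _)
  refine e4.trans (le_of_eq ?_)
  have h5 : 4 * (2 * t) = 2 ^ (d + 3) := by rw [ht]; ring
  rw [← mul_pow, h5, ← pow_mul, mul_comm]

lemma blk_card_le (j : ℕ) : (Blk j).card ≤ 2 ^ j := by
  unfold Blk
  refine (Finset.card_filter_le _ _).trans ?_
  rw [Nat.card_Ioc, pow_succ]
  omega

lemma blk_card_le' {j : ℕ} (hj : 2 ^ 22 ≤ j) : (Blk j).card ≤ 2 ^ (j - 20) := by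
  have h1 : 2 ^ (j * (Blk j).card) ≤ 2 ^ (2 ^ (j + 2)) := by
    calc 2 ^ (j * (Blk j).card) = (2 ^ j) ^ (Blk j).card := by rw [pow_mul]
      _ ≤ ∏ p ∈ Blk j, p := by
          apply Finset.pow_card_le_prod
          intro p hp
          rw [mem_blk] at hp
          exact hp.1.1.le
      _ ≤ primorial (2 ^ (j + 1)) := by
          unfold primorial
          apply Finset.prod_le_prod_of_subset_of_one_le'
          · intro p hp
            rw [mem_blk] at hp
            simp only [Finset.mem_filter, Finset.mem_range]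
            exact ⟨by omega, hp.2⟩
          · intro p hp _
            simp only [Finset.mem_filter] at hp
            exact hp.2.one_lt.le
      _ ≤ 4 ^ (2 ^ (j + 1)) := primorial_le_four_pow _
      _ = 2 ^ (2 ^ (j + 2)) := by
          have : (4 : ℕ) = 2 ^ 2 := by norm_num
          rw [this, ← pow_mul]
          congr 1
          ring
  have h2 : j * (Blk j).card ≤ 2 ^ (j + 2) := (Nat.pow_le_pow_iff_right (by norm_num)).1 h1
  by_contra hcon
  push Not at hcon
  have h3 : 2 ^ 22 * 2 ^ (j - 20) < j * (Blk j).card := by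
    calc 2 ^ 22 * 2 ^ (j - 20) < 2 ^ 22 * (Blk j).card :=
          Nat.mul_lt_mul_of_pos_left hcon (by positivity)
      _ ≤ j * (Blk j).card := Nat.mul_le_mul_right _ hj
  have h4 : 2 ^ 22 * 2 ^ (j - 20) = 2 ^ (j + 2) := by
    rw [← pow_add]
    congr 1
    have : (20 : ℕ) ≤ 2 ^ 22 := by norm_num
    omega
  omega

lemma sum_small (s : ℕ) : ∀ J ≤ s, ∑ j ∈ Finset.range J, 2 ^ j * (2 * (s - j) + 3) ≤
    2 ^ J * (2 * (s - J) + 7) := by
  intro J
  induction J with
  | zero => intro _; simp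
  | succ J ih =>
    intro hJ
    rw [Finset.sum_range_succ]
    have h1 := ih (by omega)
    obtain ⟨d, hd⟩ := Nat.exists_eq_add_of_le hJ
    have h2 : s - J = d + 1 := by omega
    have h3 : s - (J + 1) = d := by omega
    rw [h2] at h1 ⊢
    rw [h3]
    calc (∑ j ∈ Finset.range J, 2 ^ j * (2 * (s - j) + 3)) + 2 ^ J * (2 * (d + 1) + 3)
        ≤ 2 ^ J * (2 * (d + 1) + 7) + 2 ^ J * (2 * (d + 1) + 3) := by omega
      _ = 2 ^ (J + 1) * (2 * d + 7) := by ring

/-- exponents -/
def w (t j : ℕ) : ℕ :=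
  if j < t then 2 ^ j * (2 * (t + 10 - j) + 3)
  else if j < t + 20 then 2 ^ (j - 20) * 43
  else 2 ^ (2 * t + 20 - j) * (2 * (t + 10 - (2 * t + 20 - j)) + 3)

lemma sum_w (t : ℕ) (ht : 20 ≤ t) : ∑ j ∈ Finset.range (2 * t + 20), w t j ≤ 120 * 2 ^ t := by
  have split : ∑ j ∈ Finset.range (2 * t + 20), w t j =
      ∑ j ∈ Finset.range t, w t j + (∑ i ∈ Finset.range 20, w t (t + i) +
        ∑ i ∈ Finset.range t, w t (t + 20 + i)) := by
    have h1 : 2 * t + 20 = t + (20 + t) := by ring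
    rw [h1, Finset.sum_range_add, Finset.sum_range_add]
    congr 2
    apply Finset.sum_congr rfl
    intro i _
    congr 1
    ring
  rw [split]
  have p1 : ∑ j ∈ Finset.range t, w t j ≤ 27 * 2 ^ t := by
    calc ∑ j ∈ Finset.range t, w t j = ∑ j ∈ Finset.range t, 2 ^ j * (2 * (t + 10 - j) + 3) := by
          apply Finset.sum_congr rfl
          intro j hj
          rw [Finset.mem_range] at hj
          simp [w, hj]
      _ ≤ 2 ^ t * (2 * (t + 10 - t) + 7) := sum_small (t + 10) t (by omega)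
      _ = 27 * 2 ^ t := by
          have : t + 10 - t = 10 := by omega
          rw [this]; ring
  have p2 : ∑ i ∈ Finset.range 20, w t (t + i) ≤ 43 * 2 ^ t := by
    have h2 : ∀ i ∈ Finset.range 20, w t (t + i) = 2 ^ (t - 20) * 43 * 2 ^ i := by
      intro i hi
      rw [Finset.mem_range] at hi
      have h3 : ¬ t + i < t := by omega
      have h4 : t + i < t + 20 := by omega
      have h5 : t + i - 20 = (t - 20) + i := by omega
      simp only [w, h3, h4, if_true, if_false, h5, pow_add]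
      ring
    rw [Finset.sum_congr rfl h2, ← Finset.mul_sum]
    have h6 : ∑ i ∈ Finset.range 20, 2 ^ i ≤ 2 ^ 20 := by decide
    calc 2 ^ (t - 20) * 43 * ∑ i ∈ Finset.range 20, 2 ^ i ≤ 2 ^ (t - 20) * 43 * 2 ^ 20 :=
          Nat.mul_le_mul_left _ h6
      _ = 43 * (2 ^ (t - 20) * 2 ^ 20) := by ring
      _ = 43 * 2 ^ t := by
          rw [← pow_add]
          congr 2
          omega
  have p3 : ∑ i ∈ Finset.range t, w t (t + 20 + i) ≤ 50 * 2 ^ t := by
    have h2 : ∀ i ∈ Finset.range t, w t (t + 20 + i) =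
        (fun j => 2 ^ (j + 1) * (2 * (t + 10 - (j + 1)) + 3)) (t - 1 - i) := by
      intro i hi
      rw [Finset.mem_range] at hi
      have h3 : ¬ t + 20 + i < t := by omega
      have h4 : ¬ t + 20 + i < t + 20 := by omega
      have h5 : 2 * t + 20 - (t + 20 + i) = t - 1 - i + 1 := by omega
      simp only [w, h3, h4, if_false, h5]
    rw [Finset.sum_congr rfl h2, Finset.sum_range_reflect (fun j => 2 ^ (j + 1) *
      (2 * (t + 10 - (j + 1)) + 3)) t]
    have h6 : ∑ j ∈ Finset.range t, 2 ^ (j + 1) * (2 * (t + 10 - (j + 1)) + 3) ≤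
        ∑ j ∈ Finset.range (t + 1), 2 ^ j * (2 * (t + 10 - j) + 3) := by
      rw [Finset.sum_range_succ' (fun j => 2 ^ j * (2 * (t + 10 - j) + 3)) t]
      omega
    calc ∑ j ∈ Finset.range t, 2 ^ (j + 1) * (2 * (t + 10 - (j + 1)) + 3)
        ≤ ∑ j ∈ Finset.range (t + 1), 2 ^ j * (2 * (t + 10 - j) + 3) := h6
      _ ≤ 2 ^ (t + 1) * (2 * (t + 10 - (t + 1)) + 7) := sum_small (t + 10) (t + 1) (by omega)
      _ = 50 * 2 ^ t := by
          have : t + 10 - (t + 1) = 9 := by omega
          rw [this]; ring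
  omega

lemma prod_le {t : ℕ} (ht : 2 ^ 22 ≤ t) :
    ∏ j : Fin (2 * (t + 10)), (2 ^ (2 * (t + 10) - (j : ℕ)) + (Blk j).card).choose (Blk j).card ≤
      2 ^ (120 * 2 ^ t) := by
  have h20 : 20 ≤ t := by
    have : (20 : ℕ) ≤ 2 ^ 22 := by norm_num
    omega
  rw [← Finset.prod_range (fun j => (2 ^ (2 * (t + 10) - j) + (Blk j).card).choose (Blk j).card)]
  have h1 : ∀ j ∈ Finset.range (2 * (t + 10)),
      (2 ^ (2 * (t + 10) - j) + (Blk j).card).choose (Blk j).card ≤ 2 ^ (w t j) := by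
    intro j hj
    rw [Finset.mem_range] at hj
    unfold w
    split_ifs with h2 h3
    · have := choose_bound (V := 2 ^ (2 * (t + 10) - j)) (R := (Blk j).card) le_rfl
        (blk_card_le j) (by omega : j ≤ 2 * (t + 10) - j)
      refine this.trans (le_of_eq ?_)
      congr 2
      omega
    · have := choose_bound (V := 2 ^ (2 * (t + 10) - j)) (R := (Blk j).card) le_rfl
        (blk_card_le' (by omega : 2 ^ 22 ≤ j)) (by omega : j - 20 ≤ 2 * (t + 10) - j)
      refine this.trans ?_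
      apply Nat.pow_le_pow_right (by norm_num)
      apply Nat.mul_le_mul_left
      omega
    · have h4 : (2 ^ (2 * (t + 10) - j) + (Blk j).card).choose (Blk j).card =
          ((Blk j).card + 2 ^ (2 * (t + 10) - j)).choose (2 ^ (2 * (t + 10) - j)) := by
        rw [← Nat.choose_symm_add, add_comm]
      rw [h4]
      have := choose_bound (V := (Blk j).card) (R := 2 ^ (2 * (t + 10) - j)) (blk_card_le j)
        le_rfl (by omega : 2 * (t + 10) - j ≤ j)
      refine this.trans (le_of_eq ?_)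
      have e1 : 2 * (t + 10) - j = 2 * t + 20 - j := by omega
      rw [e1]
      congr 2
      omega
  calc ∏ j ∈ Finset.range (2 * (t + 10)),
        (2 ^ (2 * (t + 10) - j) + (Blk j).card).choose (Blk j).card
      ≤ ∏ j ∈ Finset.range (2 * (t + 10)), 2 ^ (w t j) := Finset.prod_le_prod' h1
    _ = 2 ^ (∑ j ∈ Finset.range (2 * (t + 10)), w t j) := by rw [Finset.prod_pow_eq_pow_sum]
    _ ≤ 2 ^ (120 * 2 ^ t) := by
        apply Nat.pow_le_pow_right (by norm_num)
        exact sum_w t h20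

end Pool.Agent.Lib.MP_f0b429_co
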